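import Mathlib

/-!
# Near relations of several numbers at once, modulo arbitrary numbers
-/

set_option autoImplicit false

namespace Pool.Agent.H267.OZ

open Real Set

attribute [local instance] Matrix.seminormedAddCommGroup in
/-- an integer combination killing `r` coordinates of `r + 1` integer vectors -/
lemma exists_comb {r : ℕ} (X : ℝ) (hX : 1 ≤ X) (e : Fin (r + 1) → Fin r → ℤ)
    (he : ∀ k j, |(e k j : ℝ)| ≤ X) :
    ∃ l : Fin (r + 1) → ℤ, l ≠ 0 ∧ (∀ j, ∑ k, l k * e k j = 0) ∧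
      ∀ k, |(l k : ℝ)| ≤ (((r + 1 : ℕ) : ℝ) * X) ^ r := by
  rcases Nat.eq_zero_or_pos r with hr | hr
  · subst hr
    refine ⟨fun _ => 1, ?_, fun j => j.elim0, fun k => by simp⟩
    intro h
    have := congrFun h 0
    simp at this
  · obtain ⟨l, hl0, hl, hb⟩ := Int.Matrix.exists_ne_zero_int_vec_norm_le
      (A := (Matrix.of fun j k => e k j : Matrix (Fin r) (Fin (r + 1)) ℤ)) (by simp) (by simpa using hr)
    refine ⟨l, hl0, fun j => ?_, fun k => ?_⟩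
    · have := congrFun hl j
      simp only [Matrix.mulVec, dotProduct, Matrix.of_apply, Pi.zero_apply] at this
      rw [← this]
      exact Finset.sum_congr rfl fun k _ => mul_comm _ _
    · have h1 : |(l k : ℝ)| ≤ ‖l‖ := norm_le_pi_norm l k
      refine h1.trans (hb.trans ?_)
      simp only [Fintype.card_fin]
      have h2 : ((r : ℝ) / (((r + 1 : ℕ) : ℝ) - r)) = r := by
        push_cast
        rw [add_sub_cancel_left, div_one]
      rw [h2, Real.rpow_natCast]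
      gcongr
      refine max_le hX ?_
      rw [Matrix.norm_le_iff (by linarith)]
      intro j k
      exact he k j

/-- **Joint near relations.**  Let `ξ_j`, `j ∈ J`, be real numbers such that for every `q ≥ 1` at least `K` of the `j`
satisfy `|q ξ_j - p| ≥ c₀ q ^ (-E)` for all integers `p`.  Then for all real numbers `t_{j,i}` and every family of
`r + 1` linearly independent integer vectors `(q_k; e_k)` of size at most `X`, at least `K` of the `j` have the property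
that one of the `r + 1` numbers `q_k ξ_j + ∑ e_{k,i} t_{j,i}` has distance `≥ c X ^ (-(r + (r + 1) E))` to the
integers. -/
theorem joint (J : Set ℕ) (hJ : J.Finite) (ξ : ℕ → ℝ) (E c₀ : ℝ) (hE : 0 ≤ E) (hc₀ : 0 < c₀) (K : ℕ)
    (h : ∀ q : ℕ, 0 < q → K ≤ Set.ncard {j : ℕ | j ∈ J ∧
      ∀ p : ℤ, c₀ * (q : ℝ) ^ (-E) ≤ |(q : ℝ) * ξ j - p|}) (r : ℕ) :
    ∃ c : ℝ, 0 < c ∧ ∀ (t : ℕ → Fin r → ℝ) (X : ℝ), 1 ≤ X →
      ∀ (q : Fin (r + 1) → ℤ) (e : Fin (r + 1) → Fin r → ℤ),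
        LinearIndependent ℤ (fun k => (q k, e k)) → (∀ k, |(q k : ℝ)| ≤ X) →
        (∀ k i, |(e k i : ℝ)| ≤ X) →
        K ≤ Set.ncard {j : ℕ | j ∈ J ∧ ∃ k, ∀ p : ℤ, c * X ^ (-((r : ℝ) + (r + 1) * E)) ≤
          |(q k : ℝ) * ξ j + ∑ i, (e k i : ℝ) * t j i - p|} := by
  have hR1 : (1 : ℝ) ≤ ((r + 1 : ℕ) : ℝ) := by push_cast; linarith [Nat.cast_nonneg (α := ℝ) r]
  obtain ⟨R, hR⟩ : ∃ R : ℝ, R = ((r + 1 : ℕ) : ℝ) := ⟨_, rfl⟩
  rw [← hR] at hR1
  have hR0 : 0 < R := by linarith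
  refine ⟨c₀ / (2 * (R ^ ((r + 1 : ℝ) * E) * (R * R ^ r))), by positivity, ?_⟩
  intro t X hX q e hv hqX heX
  have hX0 : 0 < X := by linarith
  obtain ⟨l, hl0, hl, hlb⟩ := exists_comb X hX e heX
  rw [← hR] at hlb
  obtain ⟨N, hN⟩ : ∃ N : ℤ, N = ∑ k, l k * q k := ⟨_, rfl⟩
  have hN0 : N ≠ 0 := by
    intro hcon
    apply hl0
    rw [Fintype.linearIndependent_iff] at hv
    funext k
    refine hv l ?_ k
    refine Prod.ext ?_ ?_
    · rw [Prod.fst_sum]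
      simp only [Prod.smul_fst, smul_eq_mul, Prod.fst_zero]
      rw [← hN]
      exact hcon
    · rw [Prod.snd_sum]
      funext j
      rw [Finset.sum_apply]
      simp only [Prod.smul_snd, Pi.smul_apply, smul_eq_mul, Prod.snd_zero, Pi.zero_apply]
      exact hl j
  have hNb : |(N : ℝ)| ≤ (R * X) ^ (r + 1) := by
    rw [hN]
    push_cast
    calc |∑ k, (l k : ℝ) * (q k : ℝ)| ≤ ∑ k, |(l k : ℝ) * (q k : ℝ)| :=
          Finset.abs_sum_le_sum_abs _ _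
      _ ≤ ∑ _k : Fin (r + 1), (R * X) ^ r * X := by
          refine Finset.sum_le_sum fun k _ => ?_
          rw [abs_mul]
          have h1 := hqX k
          have h2 := hlb k
          gcongr
      _ = (R * X) ^ (r + 1) := by
          rw [Finset.sum_const, Finset.card_univ, Fintype.card_fin, nsmul_eq_mul, ← hR]
          ring
  have hNn : 0 < N.natAbs := Int.natAbs_pos.2 hN0
  have hNr : ((N.natAbs : ℕ) : ℝ) = |(N : ℝ)| := by
    rw [← Int.cast_natCast, Int.natCast_natAbs, Int.cast_abs]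
  refine (h N.natAbs hNn).trans (Set.ncard_le_ncard ?_ (hJ.subset fun j hj => hj.1))
  rintro j ⟨hj, hjp⟩
  refine ⟨hj, ?_⟩
  by_contra hcon
  push Not at hcon
  choose p hp using hcon
  obtain ⟨B, hB⟩ : ∃ B : ℝ, B = c₀ / (2 * (R ^ ((r + 1 : ℝ) * E) * (R * R ^ r))) *
    X ^ (-((r : ℝ) + (r + 1) * E)) := ⟨_, rfl⟩
  rw [← hB] at hp
  have hB0 : 0 < B := by rw [hB]; positivity
  -- the combination
  have hsum : (N : ℝ) * ξ j - ((∑ k, l k * p k : ℤ) : ℝ) =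
      ∑ k, (l k : ℝ) * ((q k : ℝ) * ξ j + ∑ i, (e k i : ℝ) * t j i - p k) := by
    have h1 : ∑ k, (l k : ℝ) * ∑ i, (e k i : ℝ) * t j i = 0 := by
      simp only [Finset.mul_sum]
      rw [Finset.sum_comm]
      refine Finset.sum_eq_zero fun i _ => ?_
      have h2 : ∑ k, (l k : ℝ) * ((e k i : ℝ) * t j i) = (∑ k, (l k : ℝ) * (e k i : ℝ)) * t j i := by
        rw [Finset.sum_mul]
        exact Finset.sum_congr rfl fun k _ => by ring
      rw [h2]
      have h4 : ∑ k, (l k : ℝ) * (e k i : ℝ) = 0 := by exact_mod_cast hl i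
      rw [h4, zero_mul]
    have h2 : ∑ k, (l k : ℝ) * ((q k : ℝ) * ξ j + ∑ i, (e k i : ℝ) * t j i - p k) =
        ∑ k, (l k : ℝ) * (q k : ℝ) * ξ j + ∑ k, (l k : ℝ) * ∑ i, (e k i : ℝ) * t j i -
          ∑ k, (l k : ℝ) * (p k : ℝ) := by
      rw [← Finset.sum_add_distrib, ← Finset.sum_sub_distrib]
      exact Finset.sum_congr rfl fun k _ => by ring
    rw [h2, h1, hN, ← Finset.sum_mul]
    push_cast
    ring
  have hup : |(N : ℝ) * ξ j - ((∑ k, l k * p k : ℤ) : ℝ)| ≤ R * ((R * X) ^ r * B) := by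
    rw [hsum]
    calc |∑ k, (l k : ℝ) * ((q k : ℝ) * ξ j + ∑ i, (e k i : ℝ) * t j i - p k)|
        ≤ ∑ k, |(l k : ℝ) * ((q k : ℝ) * ξ j + ∑ i, (e k i : ℝ) * t j i - p k)| :=
          Finset.abs_sum_le_sum_abs _ _
      _ ≤ ∑ _k : Fin (r + 1), (R * X) ^ r * B := by
          refine Finset.sum_le_sum fun k _ => ?_
          rw [abs_mul]
          have h2 := hlb k
          have h3 := (hp k).le
          gcongr
      _ = _ := by
          rw [Finset.sum_const, Finset.card_univ, Fintype.card_fin, nsmul_eq_mul, ← hR]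
  have hlow : c₀ * ((N.natAbs : ℕ) : ℝ) ^ (-E) ≤ |(N : ℝ) * ξ j - ((∑ k, l k * p k : ℤ) : ℝ)| := by
    rcases lt_or_gt_of_ne hN0 with hneg | hpos
    · have h1 : ((N.natAbs : ℕ) : ℝ) = -(N : ℝ) := by
        rw [hNr, abs_of_neg (by exact_mod_cast hneg)]
      have h2 := hjp (-(∑ k, l k * p k))
      rw [h1] at h2 ⊢
      refine h2.trans (le_of_eq ?_)
      rw [← abs_neg]
      congr 1
      push_cast
      ring
    · have h1 : ((N.natAbs : ℕ) : ℝ) = (N : ℝ) := by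
        rw [hNr, abs_of_pos (by exact_mod_cast hpos)]
      have h2 := hjp (∑ k, l k * p k)
      rw [h1] at h2 ⊢
      exact h2
  have hpow : ((R * X) ^ (r + 1)) ^ E = R ^ ((r + 1 : ℝ) * E) * X ^ ((r + 1 : ℝ) * E) := by
    rw [← Real.rpow_natCast (R * X) (r + 1), ← Real.rpow_mul (by positivity),
      Real.mul_rpow hR0.le hX0.le]
    push_cast
    rfl
  have hNpos : (0 : ℝ) < ((N.natAbs : ℕ) : ℝ) := by exact_mod_cast hNn
  have h5 : c₀ ≤ R ^ ((r + 1 : ℝ) * E) * X ^ ((r + 1 : ℝ) * E) * (R * ((R * X) ^ r * B)) := by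
    rw [← hpow]
    have h8 : c₀ = ((N.natAbs : ℕ) : ℝ) ^ E * (c₀ * ((N.natAbs : ℕ) : ℝ) ^ (-E)) := by
      rw [mul_left_comm, ← Real.rpow_add hNpos, add_neg_cancel, Real.rpow_zero, mul_one]
    rw [h8]
    have h9 : ((N.natAbs : ℕ) : ℝ) ^ E ≤ ((R * X) ^ (r + 1)) ^ E := by
      apply Real.rpow_le_rpow hNpos.le _ hE
      rw [hNr]
      exact hNb
    have h10 := hlow.trans hup
    gcongr
  have h6 : R ^ ((r + 1 : ℝ) * E) * X ^ ((r + 1 : ℝ) * E) * (R * ((R * X) ^ r * B)) = c₀ / 2 := by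
    have h7 : X ^ ((r + 1 : ℝ) * E) * (X ^ r * X ^ (-((r : ℝ) + (r + 1) * E))) = 1 := by
      rw [← Real.rpow_natCast X r, ← Real.rpow_add hX0, ← Real.rpow_add hX0]
      have : (r + 1 : ℝ) * E + ((r : ℝ) + -((r : ℝ) + (r + 1) * E)) = 0 := by ring
      rw [this, Real.rpow_zero]
    rw [hB, mul_pow]
    calc R ^ ((r + 1 : ℝ) * E) * X ^ ((r + 1 : ℝ) * E) *
          (R * (R ^ r * X ^ r * (c₀ / (2 * (R ^ ((r + 1 : ℝ) * E) * (R * R ^ r))) *
            X ^ (-((r : ℝ) + (r + 1) * E)))))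
        = (R ^ ((r + 1 : ℝ) * E) * (R * R ^ r)) * (c₀ / (2 * (R ^ ((r + 1 : ℝ) * E) * (R * R ^ r)))) *
          (X ^ ((r + 1 : ℝ) * E) * (X ^ r * X ^ (-((r : ℝ) + (r + 1) * E)))) := by ring
      _ = c₀ / 2 := by
          rw [h7, mul_one]
          field_simp
  rw [h6] at h5
  linarith

/-- from large `q` to all `q ≥ 1` -/
theorem all_q (J : Set ℕ) (hJ : J.Finite) (ξ : ℕ → ℝ) (E : ℝ) (K : ℕ)
    (h : ∃ q0 : ℕ, ∀ q ≥ q0, K ≤ Set.ncard {j : ℕ | j ∈ J ∧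
      ∀ p : ℤ, (q : ℝ) ^ (-E) ≤ |(q : ℝ) * ξ j - p|}) :
    ∃ c₀ : ℝ, 0 < c₀ ∧ ∀ q : ℕ, 0 < q → K ≤ Set.ncard {j : ℕ | j ∈ J ∧
      ∀ p : ℤ, c₀ * (q : ℝ) ^ (-E) ≤ |(q : ℝ) * ξ j - p|} := by
  obtain ⟨q0, hq0⟩ := h
  obtain ⟨m, hm⟩ : ∃ m : ℕ, m = q0 + 1 := ⟨_, rfl⟩
  have hm0 : (0 : ℝ) < (m : ℝ) := by rw [hm]; positivity
  refine ⟨(m : ℝ) ^ (-E) / m, by positivity, fun q hq => ?_⟩
  have hmq : m * q ≥ q0 := by nlinarith
  refine (hq0 (m * q) hmq).trans (Set.ncard_le_ncard ?_ (hJ.subset fun j hj => hj.1))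
  rintro j ⟨hj, hjp⟩
  refine ⟨hj, fun p => ?_⟩
  have h1 := hjp (m * p)
  have hqr : (0 : ℝ) < q := by exact_mod_cast hq
  push_cast at h1
  rw [Real.mul_rpow hm0.le hqr.le] at h1
  have h2 : (m : ℝ) * q * ξ j - m * p = m * (q * ξ j - p) := by ring
  rw [h2, abs_mul, abs_of_pos hm0] at h1
  rw [div_mul_eq_mul_div, div_le_iff₀ hm0]
  linarith

end Pool.Agent.H267.OZ
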