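import Pool.Agent.H267.OZ.Joint

/-!
# Two near relations and the distance to rational planes
-/

set_option autoImplicit false

namespace Pool.Agent.H267.OZ

/-- `(z₁, z₂, z₃)` has distance at least `c / H ^ E` to the rational lines `(a + θ b) / q` of height `H` -/
def PD3 (z1 z2 z3 c : ℝ) (E : ℕ) : Prop :=
  ∀ (q : ℕ) (a1 a2 a3 b1 b2 b3 : ℤ) (θ H : ℝ), 0 < q → (q : ℝ) ≤ H → |(b1 : ℝ)| ≤ H → |(b2 : ℝ)| ≤ H →
    |(b3 : ℝ)| ≤ H →
    c / H ^ E ≤ |z1 - ((a1 : ℝ) + θ * b1) / q| ∨ c / H ^ E ≤ |z2 - ((a2 : ℝ) + θ * b2) / q| ∨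
      c / H ^ E ≤ |z3 - ((a3 : ℝ) + θ * b3) / q|

lemma PD3.rot {z1 z2 z3 c : ℝ} {E : ℕ} (h : PD3 z1 z2 z3 c E) : PD3 z2 z3 z1 c E := by
  intro q a1 a2 a3 b1 b2 b3 θ H hq hqH h1 h2 h3
  rcases h q a3 a1 a2 b3 b1 b2 θ H hq hqH h3 h1 h2 with h4 | h4 | h4
  · exact Or.inr (Or.inr h4)
  · exact Or.inl h4
  · exact Or.inr (Or.inl h4)

/-- two relations whose last three coefficient pairs have a non-vanishing minor -/
lemma case3 {z1 z2 z3 c : ℝ} {E : ℕ} (hc : 0 < c) (h : PD3 z1 z2 z3 c E)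
    (w0 w1 w2 w3 v0 v1 v2 v3 : ℤ) (M D : ℝ) (hM : 1 ≤ M)
    (hw1 : |(w1 : ℝ)| ≤ M) (hw2 : |(w2 : ℝ)| ≤ M) (hw3 : |(w3 : ℝ)| ≤ M)
    (hv1 : |(v1 : ℝ)| ≤ M) (hv2 : |(v2 : ℝ)| ≤ M) (hv3 : |(v3 : ℝ)| ≤ M)
    (hne : w1 * v2 - w2 * v1 ≠ 0)
    (hw : |(w0 : ℝ) + w1 * z1 + w2 * z2 + w3 * z3| ≤ D)
    (hv : |(v0 : ℝ) + v1 * z1 + v2 * z2 + v3 * z3| ≤ D) :
    c / (2 * M ^ 2) ^ E ≤ 2 * M * D := by
  have hM0 : 0 < M := by linarith
  have hD0 : 0 ≤ D := (abs_nonneg _).trans hw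
  have two : ∀ x y x' y' : ℤ, |(x : ℝ)| ≤ M → |(y : ℝ)| ≤ M → |(x' : ℝ)| ≤ M → |(y' : ℝ)| ≤ M →
      |((x * y' - y * x' : ℤ) : ℝ)| ≤ 2 * M ^ 2 := by
    intro x y x' y' hx hy hx' hy'
    push_cast
    calc |(x : ℝ) * y' - y * x'| ≤ |(x : ℝ) * y'| + |(y : ℝ) * x'| := abs_sub _ _
      _ ≤ M * M + M * M := by
          rw [abs_mul, abs_mul]
          gcongr
      _ = 2 * M ^ 2 := by ring
  obtain ⟨A, hA⟩ : ∃ A : ℤ, A = w1 * v2 - w2 * v1 := ⟨_, rfl⟩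
  rw [← hA] at hne
  have hA0 : (A : ℝ) ≠ 0 := by exact_mod_cast hne
  have hAr : (A : ℝ) = w1 * v2 - w2 * v1 := by rw [hA]; push_cast; ring
  have hAa : 0 < |(A : ℝ)| := abs_pos.2 hA0
  have hA1 : 1 ≤ |(A : ℝ)| := by exact_mod_cast Int.one_le_abs hne
  -- the sign
  obtain ⟨s, hs, hsA⟩ : ∃ s : ℤ, (s : ℝ) * s = 1 ∧ ((A.natAbs : ℕ) : ℝ) = s * A := by
    rcases lt_or_gt_of_ne hne with h1 | h1
    · refine ⟨-1, by norm_num, ?_⟩
      rw [← Int.cast_natCast, Int.natCast_natAbs, Int.cast_abs, abs_of_neg (by exact_mod_cast h1)]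
      push_cast
      ring
    · refine ⟨1, by norm_num, ?_⟩
      rw [← Int.cast_natCast, Int.natCast_natAbs, Int.cast_abs, abs_of_pos (by exact_mod_cast h1)]
      push_cast
      ring
  have hqn : 0 < A.natAbs := Int.natAbs_pos.2 hne
  have hs0 : (s : ℝ) ≠ 0 := by
    intro h0
    rw [h0] at hs
    norm_num at hs
  have hqH : ((A.natAbs : ℕ) : ℝ) ≤ 2 * M ^ 2 := by
    rw [← Int.cast_natCast, Int.natCast_natAbs, Int.cast_abs, hA]
    exact two w1 w2 v1 v2 hw1 hw2 hv1 hv2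
  have key := h A.natAbs (s * (v0 * w2 - w0 * v2)) (s * (v1 * w0 - w1 * v0)) 0
    (w2 * v3 - w3 * v2) (w3 * v1 - w1 * v3) (w1 * v2 - w2 * v1) (s * z3) (2 * M ^ 2) hqn hqH
    (two w2 w3 v2 v3 hw2 hw3 hv2 hv3) (two w3 w1 v3 v1 hw3 hw1 hv3 hv1) (two w1 w2 v1 v2 hw1 hw2 hv1 hv2)
  rw [hsA] at key
  have hP : 0 < c / (2 * M ^ 2) ^ E := by positivity
  rcases key with h1 | h1 | h1
  · refine h1.trans ?_
    have e1 : z1 - (((s * (v0 * w2 - w0 * v2) : ℤ) : ℝ) + s * z3 * ((w2 * v3 - w3 * v2 : ℤ) : ℝ)) / (s * A) =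
        ((v2 : ℝ) * (w0 + w1 * z1 + w2 * z2 + w3 * z3) - w2 * (v0 + v1 * z1 + v2 * z2 + v3 * z3)) / A := by
      push_cast
      field_simp
      rw [hAr]
      ring
    rw [e1, abs_div]
    refine (div_le_self (abs_nonneg _) hA1).trans ?_
    calc |(v2 : ℝ) * (w0 + w1 * z1 + w2 * z2 + w3 * z3) - w2 * (v0 + v1 * z1 + v2 * z2 + v3 * z3)|
        ≤ |(v2 : ℝ) * (w0 + w1 * z1 + w2 * z2 + w3 * z3)| + |w2 * (v0 + v1 * z1 + v2 * z2 + v3 * z3)| :=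
          abs_sub _ _
      _ ≤ M * D + M * D := by
          rw [abs_mul, abs_mul]
          gcongr
      _ = 2 * M * D := by ring
  · refine h1.trans ?_
    have e1 : z2 - (((s * (v1 * w0 - w1 * v0) : ℤ) : ℝ) + s * z3 * ((w3 * v1 - w1 * v3 : ℤ) : ℝ)) / (s * A) =
        ((w1 : ℝ) * (v0 + v1 * z1 + v2 * z2 + v3 * z3) - v1 * (w0 + w1 * z1 + w2 * z2 + w3 * z3)) / A := by
      push_cast
      field_simp
      rw [hAr]
      ring
    rw [e1, abs_div]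
    refine (div_le_self (abs_nonneg _) hA1).trans ?_
    calc |(w1 : ℝ) * (v0 + v1 * z1 + v2 * z2 + v3 * z3) - v1 * (w0 + w1 * z1 + w2 * z2 + w3 * z3)|
        ≤ |(w1 : ℝ) * (v0 + v1 * z1 + v2 * z2 + v3 * z3)| + |v1 * (w0 + w1 * z1 + w2 * z2 + w3 * z3)| :=
          abs_sub _ _
      _ ≤ M * D + M * D := by
          rw [abs_mul, abs_mul]
          gcongr
      _ = 2 * M * D := by ring
  · exfalso
    have e1 : z3 - (((0 : ℤ) : ℝ) + s * z3 * ((w1 * v2 - w2 * v1 : ℤ) : ℝ)) / (s * A) = 0 := by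
      rw [← hA]
      push_cast
      field_simp
      ring
    rw [e1, abs_zero] at h1
    linarith

/-- two linearly independent near relations between `1, z₁, z₂, z₃` -/
theorem two_forms {z1 z2 z3 c : ℝ} {E : ℕ} (hc : 0 < c) (h : PD3 z1 z2 z3 c E)
    (w v : Fin 4 → ℤ) (hind : LinearIndependent ℤ ![w, v]) (M D : ℝ) (hM : 1 ≤ M)
    (hwM : ∀ i, |(w i : ℝ)| ≤ M) (hvM : ∀ i, |(v i : ℝ)| ≤ M)
    (hw : |(w 0 : ℝ) + w 1 * z1 + w 2 * z2 + w 3 * z3| ≤ D)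
    (hv : |(v 0 : ℝ) + v 1 * z1 + v 2 * z2 + v 3 * z3| ≤ D) :
    min c 1 ≤ 2 ^ (E + 1) * M ^ (2 * E + 1) * D := by
  have hM0 : 0 < M := by linarith
  have hD0 : 0 ≤ D := (abs_nonneg _).trans hw
  have fin : c / (2 * M ^ 2) ^ E ≤ 2 * M * D → min c 1 ≤ 2 ^ (E + 1) * M ^ (2 * E + 1) * D := by
    intro h1
    rw [div_le_iff₀ (by positivity)] at h1
    refine (min_le_left _ _).trans (h1.trans (le_of_eq ?_))
    rw [mul_pow, ← pow_mul, pow_succ 2 E, pow_succ M (2 * E)]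
    ring
  have rel : ∀ x y : ℤ, (∀ i, x * w i + y * v i = 0) → x = 0 ∧ y = 0 := by
    intro x y hxy
    rw [Fintype.linearIndependent_iff] at hind
    have h1 := hind ![x, y] (by
      rw [Fin.sum_univ_two]
      funext i
      simpa using hxy i)
    exact ⟨by simpa using h1 0, by simpa using h1 1⟩
  by_cases c3 : w 1 * v 2 - w 2 * v 1 = 0
  swap
  · exact fin (case3 hc h (w 0) (w 1) (w 2) (w 3) (v 0) (v 1) (v 2) (v 3) M D hM (hwM 1) (hwM 2) (hwM 3)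
      (hvM 1) (hvM 2) (hvM 3) c3 hw hv)
  by_cases c1 : w 2 * v 3 - w 3 * v 2 = 0
  swap
  · exact fin (case3 hc h.rot (w 0) (w 2) (w 3) (w 1) (v 0) (v 2) (v 3) (v 1) M D hM (hwM 2) (hwM 3)
      (hwM 1) (hvM 2) (hvM 3) (hvM 1) c1 (le_trans (le_of_eq (by ring_nf)) hw)
      (le_trans (le_of_eq (by ring_nf)) hv))
  by_cases c2 : w 3 * v 1 - w 1 * v 3 = 0
  swap
  · exact fin (case3 hc h.rot.rot (w 0) (w 3) (w 1) (w 2) (v 0) (v 3) (v 1) (v 2) M D hM (hwM 3) (hwM 1)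
      (hwM 2) (hvM 3) (hvM 1) (hvM 2) c2 (le_trans (le_of_eq (by ring_nf)) hw)
      (le_trans (le_of_eq (by ring_nf)) hv))
  -- all minors vanish
  have hbig : (1 : ℝ) ≤ 2 * M * D → min c 1 ≤ 2 ^ (E + 1) * M ^ (2 * E + 1) * D := by
    intro h1
    refine (min_le_right _ _).trans (h1.trans ?_)
    have h2 : (1 : ℝ) ≤ 2 ^ E := one_le_pow₀ (by norm_num)
    have h3 : (1 : ℝ) ≤ M ^ (2 * E) := one_le_pow₀ hM
    calc 2 * M * D = 1 * 1 * (2 * M * D) := by ring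
      _ ≤ 2 ^ E * M ^ (2 * E) * (2 * M * D) := by gcongr
      _ = 2 ^ (E + 1) * M ^ (2 * E + 1) * D := by ring
  have gen : ∀ x y : ℤ, |(x : ℝ)| ≤ M → |(y : ℝ)| ≤ M → (x ≠ 0 ∨ y ≠ 0) →
      x * w 1 + y * v 1 = 0 → x * w 2 + y * v 2 = 0 → x * w 3 + y * v 3 = 0 → (1 : ℝ) ≤ 2 * M * D := by
    intro x y hx hy hxy h1 h2 h3
    have hN : x * w 0 + y * v 0 ≠ 0 := by
      intro h0
      have := rel x y (by
        intro i
        fin_cases i
        · exact h0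
        · exact h1
        · exact h2
        · exact h3)
      rcases hxy with h4 | h4
      · exact h4 this.1
      · exact h4 this.2
    have h4 : (1 : ℝ) ≤ |((x * w 0 + y * v 0 : ℤ) : ℝ)| := by exact_mod_cast Int.one_le_abs hN
    have h1' : (x : ℝ) * w 1 + y * v 1 = 0 := by exact_mod_cast h1
    have h2' : (x : ℝ) * w 2 + y * v 2 = 0 := by exact_mod_cast h2
    have h3' : (x : ℝ) * w 3 + y * v 3 = 0 := by exact_mod_cast h3
    have h5 : ((x * w 0 + y * v 0 : ℤ) : ℝ) = x * (w 0 + w 1 * z1 + w 2 * z2 + w 3 * z3) +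
        y * (v 0 + v 1 * z1 + v 2 * z2 + v 3 * z3) := by
      push_cast
      linear_combination (-z1) * h1' + (-z2) * h2' + (-z3) * h3'
    rw [h5] at h4
    calc (1 : ℝ) ≤ _ := h4
      _ ≤ |(x : ℝ) * (w 0 + w 1 * z1 + w 2 * z2 + w 3 * z3)| +
          |(y : ℝ) * (v 0 + v 1 * z1 + v 2 * z2 + v 3 * z3)| := abs_add_le _ _
      _ ≤ M * D + M * D := by
          rw [abs_mul, abs_mul]
          gcongr
      _ = 2 * M * D := by ring
  apply hbig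
  by_cases a1 : w 1 = 0 ∧ v 1 = 0
  · by_cases a2 : w 2 = 0 ∧ v 2 = 0
    · by_cases a3 : w 3 = 0 ∧ v 3 = 0
      · refine gen 1 0 (by simpa using hM) (by simpa using hM0.le) (Or.inl one_ne_zero) ?_ ?_ ?_
        · rw [a1.1]; ring
        · rw [a2.1]; ring
        · rw [a3.1]; ring
      · refine gen (v 3) (-w 3) (hvM 3) (by simpa using hwM 3) ?_ ?_ ?_ ?_
        · by_contra hcon
          push Not at hcon
          exact a3 ⟨by simpa using hcon.2, hcon.1⟩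
        · rw [a1.1, a1.2]; ring
        · rw [a2.1, a2.2]; ring
        · ring
    · refine gen (v 2) (-w 2) (hvM 2) (by simpa using hwM 2) ?_ ?_ ?_ ?_
      · by_contra hcon
        push Not at hcon
        exact a2 ⟨by simpa using hcon.2, hcon.1⟩
      · rw [a1.1, a1.2]; ring
      · ring
      · linear_combination (-1) * c1
  · refine gen (v 1) (-w 1) (hvM 1) (by simpa using hwM 1) ?_ ?_ ?_ ?_
    · by_contra hcon
      push Not at hcon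
      exact a1 ⟨by simpa using hcon.2, hcon.1⟩
    · ring
    · linear_combination (-1) * c3
    · linear_combination c2

end Pool.Agent.H267.OZ
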