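import Pool.Agent.H267.OZ.Joint

/-!
# Integer polynomials without constant term
-/

set_option autoImplicit false

namespace Pool.Agent.H267.OZ

/-- the value of a polynomial of degree at most `r + 1` without constant term -/
theorem aeval_split (r : ℕ) (z : ℝ) (P : Polynomial ℤ) (h : P.natDegree ≤ r + 1) (h0 : P.coeff 0 = 0) :
    Polynomial.aeval z P = (P.coeff 1 : ℝ) * z +
      ∑ j : Fin r, (P.coeff ((j : ℕ) + 2) : ℝ) * z ^ ((j : ℕ) + 2) := by
  have h1 : Polynomial.aeval z P = ∑ i ∈ Finset.range (r + 2), (P.coeff i : ℝ) * z ^ i := by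
    rw [Polynomial.aeval_eq_sum_range' (show P.natDegree < r + 2 by omega)]
    exact Finset.sum_congr rfl fun i _ => by rw [zsmul_eq_mul]
  rw [h1, Finset.sum_range_succ', Finset.sum_range_succ', Finset.sum_range, h0]
  have h2 : ∑ j : Fin r, (P.coeff ((j : ℕ) + 2) : ℝ) * z ^ ((j : ℕ) + 2) =
      ∑ j : Fin r, (P.coeff ((j : ℕ) + 1 + 1) : ℝ) * z ^ ((j : ℕ) + 1 + 1) := rfl
  rw [h2, zero_add, pow_one, Int.cast_zero, zero_mul, add_zero]
  ring

/-- independence of the coefficient vectors -/
theorem poly_ind (r : ℕ) (P : Fin (r + 1) → Polynomial ℤ) (hP : LinearIndependent ℤ P)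
    (hdeg : ∀ k, (P k).natDegree ≤ r + 1) (h0 : ∀ k, (P k).coeff 0 = 0) :
    LinearIndependent ℤ (fun k => ((P k).coeff 1, fun j : Fin r => (P k).coeff ((j : ℕ) + 2))) := by
  rw [Fintype.linearIndependent_iff] at hP ⊢
  intro g hg
  refine hP g ?_
  have hcoe : ∀ i : ℕ, ∑ k, g k * (P k).coeff i = 0 := by
    intro i
    rcases Nat.eq_zero_or_pos i with hi | hi
    · subst hi
      exact Finset.sum_eq_zero fun k _ => by rw [h0, mul_zero]
    rcases lt_or_ge i 2 with h2 | h2
    · have hi1 : i = 1 := by omega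
      subst hi1
      have h3 := congrArg Prod.fst hg
      rw [Prod.fst_sum] at h3
      simpa only [Prod.smul_fst, smul_eq_mul, Prod.fst_zero] using h3
    · rcases lt_or_ge i (r + 2) with h4 | h4
      · have h3 := congrFun (congrArg Prod.snd hg) ⟨i - 2, by omega⟩
        rw [Prod.snd_sum, Finset.sum_apply] at h3
        have h5 : i - 2 + 2 = i := by omega
        simp only [Prod.smul_snd, Pi.smul_apply, smul_eq_mul, h5, Prod.snd_zero,
          Pi.zero_apply] at h3
        exact h3
      · refine Finset.sum_eq_zero fun k _ => ?_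
        rw [Polynomial.coeff_eq_zero_of_natDegree_lt (by have := hdeg k; omega), mul_zero]
  ext i
  simpa [Polynomial.finsetSum_coeff] using hcoe i

end Pool.Agent.H267.OZ
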