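import Pool.Agent.H267.OZ.Plane

/-!
# The rank of the near relations between `1, z₁, z₂, z₃` and arbitrary numbers
-/

set_option autoImplicit false

namespace Pool.Agent.H267.OZ

open Finset

/-- the value of a relation -/
noncomputable def val {r : ℕ} (z1 z2 z3 : ℝ) (t : Fin r → ℝ) (a : Fin 4 → ℤ) (e : Fin r → ℤ) : ℝ :=
  (a 0 : ℝ) + a 1 * z1 + a 2 * z2 + a 3 * z3 + ∑ i, (e i : ℝ) * t i

/-- a small combination of near relations without the arbitrary numbers -/
lemma comb {n r : ℕ} (z1 z2 z3 : ℝ) (t : Fin r → ℝ) (a : Fin n → Fin 4 → ℤ) (e : Fin n → Fin r → ℤ)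
    (l : Fin n → ℤ) (hl : ∀ j, ∑ k, l k * e k j = 0) (X Y B : ℝ) (hY : 0 ≤ Y)
    (hlb : ∀ k, |(l k : ℝ)| ≤ Y) (haX : ∀ k i, |(a k i : ℝ)| ≤ X)
    (hB : ∀ k, |val z1 z2 z3 t (a k) (e k)| ≤ B) :
    (∀ i, |((∑ k, l k * a k i : ℤ) : ℝ)| ≤ n * (Y * X)) ∧
    |((∑ k, l k * a k 0 : ℤ) : ℝ) + ((∑ k, l k * a k 1 : ℤ) : ℝ) * z1 + ((∑ k, l k * a k 2 : ℤ) : ℝ) * z2 +
      ((∑ k, l k * a k 3 : ℤ) : ℝ) * z3| ≤ n * (Y * B) := by
  constructor
  · intro i
    push_cast
    calc |∑ k, (l k : ℝ) * (a k i : ℝ)| ≤ ∑ k, |(l k : ℝ) * (a k i : ℝ)| := abs_sum_le_sum_abs _ _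
      _ ≤ ∑ _k : Fin n, Y * X := by
          refine sum_le_sum fun k _ => ?_
          rw [abs_mul]
          have h1 := haX k i
          have h2 := hlb k
          gcongr
      _ = n * (Y * X) := by
          rw [sum_const, card_univ, Fintype.card_fin, nsmul_eq_mul]
  · have hsum : ((∑ k, l k * a k 0 : ℤ) : ℝ) + ((∑ k, l k * a k 1 : ℤ) : ℝ) * z1 +
        ((∑ k, l k * a k 2 : ℤ) : ℝ) * z2 + ((∑ k, l k * a k 3 : ℤ) : ℝ) * z3 =
        ∑ k, (l k : ℝ) * val z1 z2 z3 t (a k) (e k) := by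
      have h1 : ∑ k, (l k : ℝ) * ∑ i, (e k i : ℝ) * t i = 0 := by
        simp only [mul_sum]
        rw [sum_comm]
        refine sum_eq_zero fun i _ => ?_
        have h2 : ∑ k, (l k : ℝ) * ((e k i : ℝ) * t i) = (∑ k, (l k : ℝ) * (e k i : ℝ)) * t i := by
          rw [sum_mul]
          exact sum_congr rfl fun k _ => by ring
        rw [h2]
        have h4 : ∑ k, (l k : ℝ) * (e k i : ℝ) = 0 := by exact_mod_cast hl i
        rw [h4, zero_mul]
      have h2 : ∑ k, (l k : ℝ) * val z1 z2 z3 t (a k) (e k) =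
          ∑ k, (l k : ℝ) * (a k 0 : ℝ) + (∑ k, (l k : ℝ) * (a k 1 : ℝ)) * z1 +
            (∑ k, (l k : ℝ) * (a k 2 : ℝ)) * z2 + (∑ k, (l k : ℝ) * (a k 3 : ℝ)) * z3 +
            ∑ k, (l k : ℝ) * ∑ i, (e k i : ℝ) * t i := by
        rw [sum_mul, sum_mul, sum_mul, ← sum_add_distrib, ← sum_add_distrib, ← sum_add_distrib,
          ← sum_add_distrib]
        refine sum_congr rfl fun k _ => ?_
        unfold val
        ring
      rw [h2, h1]
      push_cast
      ring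
    rw [hsum]
    calc |∑ k, (l k : ℝ) * val z1 z2 z3 t (a k) (e k)| ≤ ∑ k, |(l k : ℝ) * val z1 z2 z3 t (a k) (e k)| :=
          abs_sum_le_sum_abs _ _
      _ ≤ ∑ _k : Fin n, Y * B := by
          refine sum_le_sum fun k _ => ?_
          rw [abs_mul]
          have h1 := hB k
          have h2 := hlb k
          gcongr
      _ = n * (Y * B) := by
          rw [sum_const, card_univ, Fintype.card_fin, nsmul_eq_mul]

/-- **Rank of the near relations between `1, z₁, z₂, z₃, t₁, …, t_r`.** -/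
theorem rank_plane {z1 z2 z3 c : ℝ} {E : ℕ} (hc : 0 < c) (h : PD3 z1 z2 z3 c E) (r : ℕ) :
    ∃ c' : ℝ, 0 < c' ∧ ∀ (t : Fin r → ℝ) (X : ℝ), 1 ≤ X →
      ∀ (a : Fin (r + 2) → Fin 4 → ℤ) (e : Fin (r + 2) → Fin r → ℤ),
        LinearIndependent ℤ (fun k => (a k, e k)) → (∀ k i, |(a k i : ℝ)| ≤ X) →
        (∀ k i, |(e k i : ℝ)| ≤ X) →
        ∃ k, c' / X ^ ((r + 1) * (2 * E + 1) + r) ≤ |val z1 z2 z3 t (a k) (e k)| := by
  have hR1 : (1 : ℝ) ≤ ((r + 1 : ℕ) : ℝ) := by push_cast; linarith [Nat.cast_nonneg (α := ℝ) r]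
  obtain ⟨R, hR⟩ : ∃ R : ℝ, R = ((r + 1 : ℕ) : ℝ) := ⟨_, rfl⟩
  rw [← hR] at hR1
  have hR0 : 0 < R := by linarith
  have hm0 : 0 < min c 1 := by positivity
  refine ⟨min c 1 / (2 * (2 ^ (E + 1) * (R ^ (r + 1)) ^ (2 * E + 1) * (R * R ^ r))), by positivity, ?_⟩
  intro t X hX a e hv haX heX
  have hX0 : 0 < X := by linarith
  have hRX1 : 1 ≤ R * X := by nlinarith
  by_contra hcon
  push Not at hcon
  obtain ⟨B, hB⟩ : ∃ B : ℝ, B = min c 1 / (2 * (2 ^ (E + 1) * (R ^ (r + 1)) ^ (2 * E + 1) * (R * R ^ r))) /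
    X ^ ((r + 1) * (2 * E + 1) + r) := ⟨_, rfl⟩
  rw [← hB] at hcon
  have hB0 : 0 < B := by rw [hB]; positivity
  -- first combination: without the last vector
  obtain ⟨l, hl0, hl, hlb⟩ := exists_comb X hX (fun k : Fin (r + 1) => e (Fin.castSucc k))
    (fun k j => heX _ j)
  obtain ⟨k0, hk0⟩ : ∃ k0, l k0 ≠ 0 := by
    by_contra hcon2
    push Not at hcon2
    exact hl0 (funext hcon2)
  -- second combination: without the vector `k0`
  obtain ⟨m, hm0', hm, hmb⟩ := exists_comb X hX (fun k : Fin (r + 1) => e ((Fin.castSucc k0).succAbove k))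
    (fun k j => heX _ j)
  rw [← hR] at hlb hmb
  have hYn : (0 : ℝ) ≤ (R * X) ^ r := by positivity
  have c1 := comb z1 z2 z3 t (fun k : Fin (r + 1) => a (Fin.castSucc k)) (fun k => e (Fin.castSucc k)) l hl
    X ((R * X) ^ r) B hYn hlb (fun k i => haX _ i) (fun k => (hcon _).le)
  have c2 := comb z1 z2 z3 t (fun k : Fin (r + 1) => a ((Fin.castSucc k0).succAbove k))
    (fun k => e ((Fin.castSucc k0).succAbove k)) m hm
    X ((R * X) ^ r) B hYn hmb (fun k i => haX _ i) (fun k => (hcon _).le)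
  obtain ⟨w, hw⟩ : ∃ w : Fin 4 → ℤ, w = fun i => ∑ k, l k * a (Fin.castSucc k) i := ⟨_, rfl⟩
  obtain ⟨v, hv'⟩ : ∃ v : Fin 4 → ℤ, v = fun i => ∑ k, m k * a ((Fin.castSucc k0).succAbove k) i :=
    ⟨_, rfl⟩
  -- independence
  have hind : LinearIndependent ℤ ![w, v] := by
    rw [LinearIndependent.pair_iff]
    intro x y hxy
    -- the total combination
    rw [Fintype.linearIndependent_iff] at hv
    obtain ⟨g, hg⟩ : ∃ g : Fin (r + 2) → ℤ, g = fun k =>
      x * (Fin.lastCases (motive := fun _ => ℤ) 0 l k) +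
      y * ((Fin.castSucc k0).insertNth (α := fun _ => ℤ) 0 m k) := ⟨_, rfl⟩
    have hs1 : ∀ f : Fin (r + 2) → ℤ,
        ∑ k, (Fin.lastCases (motive := fun _ => ℤ) 0 l k) * f k = ∑ k, l k * f (Fin.castSucc k) := by
      intro f
      rw [Fin.sum_univ_castSucc]
      simp
    have hs2 : ∀ f : Fin (r + 2) → ℤ,
        ∑ k, ((Fin.castSucc k0).insertNth (α := fun _ => ℤ) 0 m k) * f k =
          ∑ k, m k * f ((Fin.castSucc k0).succAbove k) := by
      intro f
      rw [Fin.sum_univ_succAbove _ (Fin.castSucc k0)]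
      simp
    have hs : ∀ f : Fin (r + 2) → ℤ, ∑ k, g k * f k =
        x * ∑ k, l k * f (Fin.castSucc k) + y * ∑ k, m k * f ((Fin.castSucc k0).succAbove k) := by
      intro f
      rw [hg, ← hs1, ← hs2, mul_sum, mul_sum, ← sum_add_distrib]
      exact sum_congr rfl fun k _ => by ring
    have hg0 := hv g (by
      refine Prod.ext ?_ ?_
      · rw [Prod.fst_sum]
        funext i
        rw [Finset.sum_apply]
        simp only [Prod.smul_fst, Pi.smul_apply, smul_eq_mul, Prod.fst_zero, Pi.zero_apply]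
        rw [hs (fun k => a k i)]
        have h1 := congrFun hxy i
        rw [hw, hv'] at h1
        simpa using h1
      · rw [Prod.snd_sum]
        funext j
        rw [Finset.sum_apply]
        simp only [Prod.smul_snd, Pi.smul_apply, smul_eq_mul, Prod.snd_zero, Pi.zero_apply]
        rw [hs (fun k => e k j), hl j, hm j]
        ring)
    have hx : x = 0 := by
      have h1 := hg0 (Fin.castSucc k0)
      rw [hg] at h1
      simp only [Fin.lastCases_castSucc, Fin.insertNth_apply_same, mul_zero, add_zero] at h1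
      rcases mul_eq_zero.1 h1 with h2 | h2
      · exact h2
      · exact absurd h2 hk0
    refine ⟨hx, ?_⟩
    obtain ⟨k1, hk1⟩ : ∃ k1, m k1 ≠ 0 := by
      by_contra hcon2
      push Not at hcon2
      exact hm0' (funext hcon2)
    have h1 := hg0 ((Fin.castSucc k0).succAbove k1)
    rw [hg] at h1
    simp only [hx, zero_mul, zero_add, Fin.insertNth_apply_succAbove] at h1
    rcases mul_eq_zero.1 h1 with h2 | h2
    · exact h2
    · exact absurd h2 hk1
  have hM1 : 1 ≤ R * ((R * X) ^ r * X) := by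
    have h1 : (1 : ℝ) ≤ (R * X) ^ r := one_le_pow₀ hRX1
    nlinarith [mul_le_mul h1 hX (by norm_num) (by linarith)]
  have key := two_forms hc h w v hind (R * ((R * X) ^ r * X)) (R * ((R * X) ^ r * B)) hM1
    (fun i => by rw [hw, hR]; rw [hR] at c1; exact c1.1 i)
    (fun i => by rw [hv', hR]; rw [hR] at c2; exact c2.1 i)
    (by rw [hw, hR]; rw [hR] at c1; exact c1.2)
    (by rw [hv', hR]; rw [hR] at c2; exact c2.2)
  have e1 : 2 ^ (E + 1) * (R * ((R * X) ^ r * X)) ^ (2 * E + 1) * (R * ((R * X) ^ r * B)) = min c 1 / 2 := by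
    have e2 : R * ((R * X) ^ r * X) = R ^ (r + 1) * X ^ (r + 1) := by rw [mul_pow]; ring
    have e3 : R * ((R * X) ^ r * B) = (R * R ^ r) * (X ^ r * B) := by rw [mul_pow]; ring
    rw [e2, e3, mul_pow, ← pow_mul X, hB]
    have e4 : X ^ ((r + 1) * (2 * E + 1) + r) = X ^ ((r + 1) * (2 * E + 1)) * X ^ r := pow_add _ _ _
    rw [e4]
    field_simp
  rw [e1] at key
  linarith

end Pool.Agent.H267.OZ
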